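import Pool.Agent.H29.DF.Targets

/-!
MP_52e316_nt, board dfx_modules, row XHS: the sum over all lines is a sum over ideals.
-/

set_option autoImplicit false

open MeasureTheory Set Filter NumberField
open scoped Real nonZeroDivisors Matrix MatrixGroups
open Pool.Agent.H31.CN Pool.Agent.H89.FM Pool.Agent.H61.FM Pool.Agent.H89.FC Pool.Agent.H95.FC
open Pool.Agent.H89.DF Pool.Agent.H95.DR Pool.Agent.H29.DF

namespace Pool.Agent.H35.DF

open Classical in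
/-- the extension of `g` from the squarefree numbers up to `N` -/
noncomputable def hx (g : ℕ → ℂ) (N : ℕ) (x : ℝ) : ℂ :=
  if ∃ n ∈ Sq N, x = (n : ℝ) then g ⌊x⌋₊ else 0

theorem hx_mem (g : ℕ → ℂ) {N n : ℕ} (hn : n ∈ Sq N) : hx g N (n : ℝ) = g n := by
  unfold hx
  rw [if_pos ⟨n, hn, rfl⟩, Nat.floor_natCast]

theorem hx_not (g : ℕ → ℂ) {N n : ℕ} (hn : n ∉ Sq N) : hx g N (n : ℝ) = 0 := by
  unfold hx
  rw [if_neg]
  rintro ⟨m, hm, h⟩
  have h1 : n = m := by exact_mod_cast h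
  exact hn (h1 ▸ hm)

theorem abs_val (Q : QF) (v : ℤ × ℤ) : |(val Q v : ℝ)| = ((val Q v).natAbs : ℝ) := by
  rw [Nat.cast_natAbs]
  push_cast
  rfl

theorem fin_win {K : Type} [Field K] [NumberField K] (hEMB : T_EMB) {D : ℕ} {σ σ' : K →+* ℝ}
    (hR : RQ K D σ σ') {I : Ideal (𝓞 K)} {α β : 𝓞 K} {Q : QF} (ho : OBr σ σ' I α β Q)
    (η : (𝓞 K)ˣ) (N : ℕ) :
    {u : ℤ × ℤ | (val Q u).natAbs ≤ N ∧ Wd σ σ' α β η 0 u}.Finite := by
  obtain ⟨-, -, hfin⟩ := hEMB K D σ σ' hR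
  obtain ⟨A, hA⟩ : ∃ A : ℝ, A = Ideal.absNorm I * N := ⟨_, rfl⟩
  obtain ⟨E, hE⟩ : ∃ E : ℝ, E = Real.exp (lg σ σ' (η : 𝓞 K)) := ⟨_, rfl⟩
  have hA0 : 0 ≤ A := by rw [hA]; positivity
  have hE0 : 0 < E := by rw [hE]; exact Real.exp_pos _
  have hinj : Function.Injective (fun v : ℤ × ℤ => lv K α β v) := by
    intro u v huv
    have h1 : lv K α β (u - v) = 0 := by
      have h2 : lv K α β (u - v) = lv K α β u - lv K α β v := by
        unfold lv
        rw [Prod.fst_sub, Prod.snd_sub]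
        push_cast
        ring
      rw [h2]
      exact sub_eq_zero.2 huv
    exact sub_eq_zero.1 (ho.inj _ h1)
  refine ((hfin (A * (E + 1) + 1)).preimage hinj.injOn).subset ?_
  rintro u ⟨h1, h2, h3, h4⟩
  have ha : lv K α β u ≠ 0 := fun h => h2 (ho.inj _ h)
  have haK : (lv K α β u : K) ≠ 0 := by
    intro h
    exact ha (by exact_mod_cast h)
  have hp : 0 < |σ (lv K α β u : K)| := abs_pos.2 ((map_ne_zero σ).2 haK)
  have hq : 0 < |σ' (lv K α β u : K)| := abs_pos.2 ((map_ne_zero σ').2 haK)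
  have hpq : |σ (lv K α β u : K)| * |σ' (lv K α β u : K)| ≤ A := by
    rw [← abs_mul, ho.nrm u, abs_mul, abs_val, hA, Nat.abs_cast]
    have h5 : (((val Q u).natAbs : ℕ) : ℝ) ≤ N := by exact_mod_cast h1
    exact mul_le_mul_of_nonneg_left h5 (by positivity)
  have hpos : 0 < |σ (lv K α β u : K) / σ' (lv K α β u : K)| := by
    rw [abs_div]
    exact div_pos hp hq
  have h5 : |σ' (lv K α β u : K)| ≤ |σ (lv K α β u : K)| := by
    have h6 := (Real.log_nonneg_iff hpos).1 h3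
    rw [abs_div, one_le_div hq] at h6
    exact h6
  have h6 : |σ (lv K α β u : K)| ≤ E * |σ' (lv K α β u : K)| := by
    rw [zero_add] at h4
    have h7 := (Real.log_lt_iff_lt_exp hpos).1 h4
    rw [abs_div, div_lt_iff₀ hq, ← hE] at h7
    exact h7.le
  have h7 : |σ (lv K α β u : K)| ≤ A * (E + 1) + 1 := by
    by_contra h
    rw [not_le] at h
    have h8 : |σ (lv K α β u : K)| * |σ (lv K α β u : K)| ≤ E * A := by
      calc |σ (lv K α β u : K)| * |σ (lv K α β u : K)| ≤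
          |σ (lv K α β u : K)| * (E * |σ' (lv K α β u : K)|) :=
            mul_le_mul_of_nonneg_left h6 hp.le
        _ = E * (|σ (lv K α β u : K)| * |σ' (lv K α β u : K)|) := by ring
        _ ≤ E * A := mul_le_mul_of_nonneg_left hpq hE0.le
    have h9 : 0 ≤ A * E := by positivity
    nlinarith
  exact ⟨h7, h5.trans h7⟩

open Classical in
theorem pf_XHS (hSUM : T_SUMr) (hTWS : T_TWSr) (hEMB : T_EMB) (hUWN : T_UWN) : T_XHS := by
  intro K _ _ D f σ σ' hR hf R κ N ν g ψ hψ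
  obtain ⟨-, hn0, -⟩ := hUWN K D f σ σ' hR R.η R.un
  obtain ⟨a, ha⟩ : ∃ a : ClassGroup (𝓞 K) → ℤ × ℤ → ℂ, a = fun c V =>
      ∑' v : ℤ × ℤ, if Lx f N (R.Q c) V v ∧ Wd σ σ' (R.α c) (R.β c) R.η 0 v then
        g (val (R.Q c) v).natAbs * tyr σ σ' κ ν (lv K (R.α c) (R.β c) v) else 0 := ⟨_, rfl⟩
  have h1 : ∀ c, ∀ V ∈ R.T c, HasSum (fun u : ℤ × ℤ => if u ∈ (⊤ : AddSubgroup (ℤ × ℤ)) ∧
      (f : ℤ) ∣ det V u ∧ Wd σ σ' (R.α c) (R.β c) R.η 0 u then
        tyr σ σ' κ ν (lv K (R.α c) (R.β c) u) * hx g N |(val (R.Q c) u : ℝ)| else 0) (a c V) := by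
    intro c V hV
    have e : (fun u : ℤ × ℤ => if u ∈ (⊤ : AddSubgroup (ℤ × ℤ)) ∧
        (f : ℤ) ∣ det V u ∧ Wd σ σ' (R.α c) (R.β c) R.η 0 u then
        tyr σ σ' κ ν (lv K (R.α c) (R.β c) u) * hx g N |(val (R.Q c) u : ℝ)| else 0) =
        fun v : ℤ × ℤ => if Lx f N (R.Q c) V v ∧ Wd σ σ' (R.α c) (R.β c) R.η 0 v then
          g (val (R.Q c) v).natAbs * tyr σ σ' κ ν (lv K (R.α c) (R.β c) v) else 0 := by
      funext u
      rw [abs_val]
      by_cases h1 : (f : ℤ) ∣ det V u ∧ Wd σ σ' (R.α c) (R.β c) R.η 0 u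
      · rw [if_pos ⟨AddSubgroup.mem_top u, h1⟩]
        by_cases h2 : (val (R.Q c) u).natAbs ∈ Sq N
        · rw [hx_mem g h2, if_pos ⟨⟨h1.2.1, h1.1, h2⟩, h1.2⟩, mul_comm]
        · rw [hx_not g h2, mul_zero, if_neg]
          rintro ⟨h3, -⟩
          exact h2 h3.sq
      · rw [if_neg, if_neg]
        · rintro ⟨h2, h3⟩
          exact h1 ⟨h2.lin, h3⟩
        · rintro ⟨-, h2⟩
          exact h1 h2
    rw [e, ha]
    have hfin := fin_win hEMB hR (R.ob c) R.η N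
    refine (hasSum_sum_of_ne_finset_zero (s := hfin.toFinset) fun v hv => ?_).summable.hasSum
    rw [if_neg]
    rintro ⟨h2, h3⟩
    refine hv (hfin.mem_toFinset.2 ⟨?_, h3⟩)
    have h4 := h2.sq
    unfold Sq at h4
    rw [Finset.mem_filter, Finset.mem_Icc] at h4
    exact h4.1.2
  have h2 : ∀ c, HasSum (fun u : ℤ × ℤ => if u ∈ (⊤ : AddSubgroup (ℤ × ℤ)) ∧
      Wd σ σ' (R.α c) (R.β c) R.η 0 u then
        ψ (R.b c u) * hx g N |(val (R.Q c) u : ℝ)| else 0)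
      (∑ V ∈ R.T c, rtr σ σ' κ ν ψ (R.b c) (R.α c) (R.β c) V * a c V) := fun c =>
    hSUM K σ σ' f κ ν ψ (R.I c) (R.α c) (R.β c) (R.Q c) (R.b c) (R.T c) (R.W c) R.η (R.ob c)
      (R.vb c) (R.lt c) hψ ⊤ (hx g N) (a c) (h1 c)
  have hnm1 : nm (1 : (Ideal (𝓞 K))⁰) = 1 := by
    unfold nm
    rw [Submonoid.coe_one]
    exact map_one Ideal.absNorm
  have h3 : ∀ c, HasSum (fun J : (Ideal (𝓞 K))⁰ => if ClassGroup.mk0 J = c⁻¹ then
      ψ J * hx g N (nm J) else 0)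
      ((∑ V ∈ R.T c, rtr σ σ' κ ν ψ (R.b c) (R.α c) (R.β c) V * a c V) / nq σ σ' R.η) := by
    intro c
    have h4 := hTWS K D f σ σ' hR (R.I c) 1 (R.α c) (R.β c) (R.Q c) (R.b c) R.η ψ (R.ob c)
      (R.vb c) R.un hψ.mul (hx g N)
      (∑ V ∈ R.T c, rtr σ σ' κ ν ψ (R.b c) (R.α c) (R.β c) V * a c V) (by
        have e : (fun v : ℤ × ℤ => if v ∈ lt K (R.α c) (R.β c)
            (((1 : (Ideal (𝓞 K))⁰) : Ideal (𝓞 K)) * R.I c) ∧
            Wd σ σ' (R.α c) (R.β c) R.η 0 v then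
            ψ (R.b c v) * hx g N (|(val (R.Q c) v : ℝ)| / nm (1 : (Ideal (𝓞 K))⁰)) else 0) =
            (fun u : ℤ × ℤ => if u ∈ (⊤ : AddSubgroup (ℤ × ℤ)) ∧
              Wd σ σ' (R.α c) (R.β c) R.η 0 u then
              ψ (R.b c u) * hx g N |(val (R.Q c) u : ℝ)| else 0) := by
          funext v
          rw [hnm1, Nat.cast_one, div_one]
          have h5 : v ∈ lt K (R.α c) (R.β c)
              (((1 : (Ideal (𝓞 K))⁰) : Ideal (𝓞 K)) * R.I c) := by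
            rw [Submonoid.coe_one, one_mul]
            exact ((R.ob c).mem _).2 ⟨v, rfl⟩
          by_cases h6 : Wd σ σ' (R.α c) (R.β c) R.η 0 v
          · rw [if_pos ⟨h5, h6⟩, if_pos ⟨AddSubgroup.mem_top v, h6⟩]
          · rw [if_neg fun h => h6 h.2, if_neg fun h => h6 h.2]
        rw [e]
        exact h2 c)
    have e : (fun J : (Ideal (𝓞 K))⁰ => if ClassGroup.mk0 J =
        (ClassGroup.mk0 (R.I c) * ClassGroup.mk0 (1 : (Ideal (𝓞 K))⁰))⁻¹ then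
          ψ ((1 : (Ideal (𝓞 K))⁰) : Ideal (𝓞 K)) * ψ J * hx g N (nm J) else 0) =
        fun J : (Ideal (𝓞 K))⁰ => if ClassGroup.mk0 J = c⁻¹ then
          ψ J * hx g N (nm J) else 0 := by
      funext J
      rw [map_one, mul_one, R.cl c, Submonoid.coe_one, Ideal.one_eq_top, hψ.one, one_mul]
    rw [e] at h4
    exact h4
  have h4 : HasSum (fun J : (Ideal (𝓞 K))⁰ => ψ J * hx g N (nm J))
      (∑ c, (∑ V ∈ R.T c, rtr σ σ' κ ν ψ (R.b c) (R.α c) (R.β c) V * a c V) /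
        nq σ σ' R.η) := by
    have h5 := hasSum_sum fun c (_ : c ∈ (Finset.univ : Finset (ClassGroup (𝓞 K)))) => h3 c
    have e : (fun J : (Ideal (𝓞 K))⁰ => ∑ c : ClassGroup (𝓞 K),
        if ClassGroup.mk0 J = c⁻¹ then ψ J * hx g N (nm J) else 0) =
        fun J : (Ideal (𝓞 K))⁰ => ψ J * hx g N (nm J) := by
      funext J
      rw [Finset.sum_eq_single (ClassGroup.mk0 J)⁻¹]
      · rw [inv_inv, if_pos rfl]
      · intro c _ hc
        rw [if_neg]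
        intro h
        exact hc (by rw [h, inv_inv])
      · intro h
        exact absurd (Finset.mem_univ _) h
    rw [e] at h5
    exact h5
  have h5 : HasSum (fun J : (Ideal (𝓞 K))⁰ => ψ J * hx g N (nm J))
      (∑ n ∈ Sq N, g n * lc ψ n) := by
    have h6 : HasSum (fun J : (Ideal (𝓞 K))⁰ => ψ J * hx g N (nm J))
        (∑ J ∈ (Sq N).biUnion (fun n => Nn K n), ψ (J : Ideal (𝓞 K)) * hx g N (nm J)) :=
      hasSum_sum_of_ne_finset_zero fun J hJ => by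
        rw [hx_not, mul_zero]
        intro h
        exact hJ (Finset.mem_biUnion.2 ⟨nm J, h, mem_Nn.2 rfl⟩)
    have h7 : ∑ J ∈ (Sq N).biUnion (fun n => Nn K n), ψ (J : Ideal (𝓞 K)) * hx g N (nm J) =
        ∑ n ∈ Sq N, g n * lc ψ n := by
      rw [Finset.sum_biUnion]
      · refine Finset.sum_congr rfl fun n hn => ?_
        unfold lc
        rw [Finset.mul_sum]
        refine Finset.sum_congr rfl fun J hJ => ?_
        rw [mem_Nn.1 hJ, hx_mem g hn, mul_comm]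
      · intro n _ n' _ hnn
        rw [Function.onFun, Finset.disjoint_left]
        intro J hJ hJ'
        exact hnn ((mem_Nn.1 hJ).symm.trans (mem_Nn.1 hJ'))
    rw [h7] at h6
    exact h6
  have h6 := h4.unique h5
  rw [← Finset.sum_div] at h6
  have hn1 : (nq σ σ' R.η : ℂ) ≠ 0 := by exact_mod_cast hn0.ne'
  rw [div_eq_iff hn1] at h6
  unfold DD.J
  rw [Finset.sum_sigma]
  have h7 : ∑ c : ClassGroup (𝓞 K), ∑ V ∈ R.T c, R.ρ κ ν ψ c V *
      (∑' v : ℤ × ℤ, if Lx f N (R.Q c) V v ∧ Wd σ σ' (R.α c) (R.β c) R.η 0 v then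
        g (val (R.Q c) v).natAbs * tyr σ σ' κ ν (lv K (R.α c) (R.β c) v) else 0) =
      ∑ c : ClassGroup (𝓞 K), ∑ V ∈ R.T c,
        rtr σ σ' κ ν ψ (R.b c) (R.α c) (R.β c) V * a c V := by
    rw [ha]
    rfl
  rw [mul_comm ((R.n : ℕ) : ℂ)]
  exact h7.trans h6

end Pool.Agent.H35.DF
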